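import Pool.Agent.Results.MP_081200_nt.ThinSequences
import Pool.Agent.U569.APL.NatW

/-!
# MP_081200_nt: short sums of the cubic characters whose conductors are formed from arbitrary sets

For an Eisenstein integer `α = a + b ω` whose norm `N(α)` is not divisible by `3` let `ψ` be the cubic residue symbol of `α`, a
character modulo `N(α)` with values cubic roots of unity. `ShortSums δ A w Λ y X α` (starting file `ThinSequences`) says that
`|∑ w (n) ψ (n) n ^ (- i τ)| ≤ x ^ (1 / 2 + δ)`, the sum over `M < n ≤ M'`, for all `x` with `y ≤ x ≤ X`, all functions `w` from a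
given set `Λ x` of at most `x ^ A` functions bounded by one (for example `w = 1`), all real `|τ| ≤ x ^ A` and all
`M < M' ≤ x`. Here `X = N(α) ^ κ₀`, so that the short sums over all intervals in `(0, N(α) ^ κ₀]` are treated, from a fixed
length `y` on.

**Theorem.** Let `δ > 0`, `A`, `B` and `β > 0` be given. There are `κ₀ > 0` and `y₀` such that the following is true for every
sequence (`j = 0, 1, 2, …`) of finite families of Eisenstein integers `α = (c₀)_1 + y_1 + ((c₀)_2 + y_2) ω` with nonnegative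
coordinates, where `|c₀| ≤ q ^ B`, and `(y_1, y_2)` are pairs of residues modulo some `q → ∞` (represented by
`0, …, q - 1`) whose nontrivial Fourier coefficients are at most `1 / (Z (42 + 3 log q) ^ 2)`, `q ^ β ≤ Z ≤ q` (`PowerFlat`): for
large `j`, for ALL `y ≥ y₀` and all sets `Λ x` of at most `x ^ A` functions `w`, for all but the proportion `1 / y ^ A` of the
members `α` of the `j`-th family, `ShortSums δ A w Λ y (N(α) ^ κ₀) α` is true.

Such families are (`ExamplesP`), for `q = P → ∞` a prime, `0 < ε ≤ 1` and `β = ε / 8`: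

* `y = b(x, z) + u(x) + w(z)`, where `b : F ^ m × F ^ n → F ^ 2` is bilinear, `F` the field with `P` elements, the nontrivial
  combinations of its two coordinates have rank at least `ρ`, `x` and `z` are in ARBITRARY sets `S` and `T` with
  `|S| |T| ≥ P ^ (m + n - ρ + ε)`, `u` and `w` are arbitrary functions;
* the products `x z` of `x` and `z` in ARBITRARY subsets `S`, `T` of the field with `P ^ 2` elements, `|S| |T| ≥ P ^ (2 + ε)`
  (plus arbitrary functions of `x` and of `z`), with respect to any basis over `F`; for `P = 2` modulo `3` one can take the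
  basis `1, ω` of the field `ℤ[ω] / P`, then the `α` are the least residues modulo `P` of the products of the elements of two
  arbitrary sets of Eisenstein integers modulo `P`;
* pairs of polynomials of degree at most `P ^ (ε / 4)` in any number of variables, all nontrivial combinations of which have
  a monomial with at least two variables (plus arbitrary functions of the single variables), on products of ARBITRARY
  sets of at least `P ^ (1 / 2 + ε)` residues, for example `α = r(s t) + r(s t u) ω`, `s, t, u ∈ S`, where `r` is the residue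
  modulo `P` in `0, …, P - 1`;
* pairs of polynomials of degree at most `P ^ (ε / 4)` in one variable, no nontrivial combination of which is constant, on
  any subgroup of the multiplicative group modulo `P` with at least `P ^ (1 / 2 + ε)` elements.

New: the families (the starting file has the integer parts of two generalised polynomials at the same integer), and the
range up to a power of the conductor of the single character. Method: moments over well distributed families
(`Pool.Agent.N647.TS.mt_law2W`), cubic reciprocity (`Pool.Agent.X22.CC2`), distribution of families with small Fourier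
coefficients (`Pool.Agent.N384.VF`), and the estimates of the Fourier coefficients on arbitrary sets in `U569/APL`.
-/

set_option autoImplicit false

namespace Pool.Agent.Results.MP_081200_nt.ArbitrarySets

open Finset Filter
open Pool.Agent.X22.CC Pool.Agent.X22.MT
open Pool.Agent.Y692.QS (Ei nr ep star_re epz wC)
open Pool.Agent.Results.MP_081200_nt.ThinSequences (Eis nm IsSymbol shortSum ShortSums residue_eq prod_zero)
open Pool.Agent.U569.APL

lemma nm_le (m : Fin 2 → ℕ) : ((nm (toE m) : ℤ) : ℝ) ≤ (1 + ∑ l, (m l : ℝ)) ^ 2 := by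
  have e : nm (toE m) = (m 0 : ℤ) ^ 2 - m 0 * m 1 + (m 1 : ℤ) ^ 2 := rfl
  rw [e, Fin.sum_univ_two]
  push_cast
  have h0 : (0 : ℝ) ≤ m 0 := Nat.cast_nonneg _
  have h1 : (0 : ℝ) ≤ m 1 := Nat.cast_nonneg _
  nlinarith [mul_nonneg h0 h1]

lemma nm_nonneg (m : Fin 2 → ℕ) : (0 : ℝ) ≤ ((nm (toE m) : ℤ) : ℝ) := by
  have e : nm (toE m) = (m 0 : ℤ) ^ 2 - m 0 * m 1 + (m 1 : ℤ) ^ 2 := rfl
  rw [e]
  push_cast
  nlinarith [sq_nonneg ((m 0 : ℝ) - m 1), sq_nonneg ((m 0 : ℝ) + m 1), sq_nonneg (m 0 : ℝ), sq_nonneg (m 1 : ℝ)]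

open Classical in
/-- **Short sums of the cubic characters with conductors formed from arbitrary sets.** -/
theorem result (δ : ℝ) (hδ : 0 < δ) (A B : ℕ) :
    (∀ β : ℝ, 0 < β → ∃ κ₀ : ℝ, 0 < κ₀ ∧ ∃ y₀ : ℕ, ∀ (τ : ℕ → Type) (s : ∀ j, Finset (τ j))
      (v : ∀ j, τ j → Fin 2 → ℤ), PowerFlat β B s v → (∀ j, ∀ i ∈ s j, ∀ l, 0 ≤ v j i l) →
      ∀ᶠ j in atTop, ∀ y : ℕ, y₀ ≤ y → ∀ (κ : Type) (w : κ → ℕ → ℂ) (Λ : ℕ → Finset κ), (∀ i n, ‖w i n‖ ≤ 1) →
        (∀ x, (Λ x).card ≤ x ^ A) →
          ({i : τ j | i ∈ s j ∧ ¬ ShortSums δ A w Λ y ((nm ⟨v j i 0, v j i 1⟩ : ℝ) ^ κ₀) ⟨v j i 0, v j i 1⟩}.ncard : ℝ) ≤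
            1 / (y : ℝ) ^ A * (s j).card) ∧
    ExamplesP (Fin 2) B := by
  refine ⟨fun β hβ => ?_, examplesP _ _⟩
  have h3L : 3 ∣ 3 := dvd_rfl
  obtain ⟨M₀, y₀, hlaw⟩ := Pool.Agent.N647.TS.mt_law2W 2 3 (by norm_num) δ hδ A (A + 4) A
  obtain ⟨κ₀, hκ₀, hconv⟩ := power_conv 2 hβ B M₀
  refine ⟨κ₀ / 2, by positivity, y₀ + 3, fun τ s v hs hpos => ?_⟩
  filter_upwards [hconv hs hpos] with j hj y hy κ w Λ hw hΛ
  obtain ⟨Λ', hΛ'⟩ : ∃ Λ' : ℕ → Finset (κ × (ZMod 3 × ZMod 3)), Λ' = fun x => (Λ x) ×ˢ univ := ⟨_, rfl⟩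
  obtain ⟨R, hR⟩ : ∃ R : ℕ → (Fin 2 → ℕ) → Prop, R = fun (x : ℕ) (m : Fin 2 → ℕ) =>
    ∀ l ∈ Λ' x, ∀ τ : ℝ, |τ| ≤ (x : ℝ) ^ A → ∀ χ : ℕ → ℂ,
      (∀ n, ‖χ n‖ ≤ 1) → (∀ n n' : ℕ, 1 ≤ n → 1 ≤ n' → χ (n * n') = χ n * χ n') →
      (∀ n ∈ nn 3 x, χ n = FF n (star (epz l.2.1 l.2.2)) * FF n (toE m)) → ∀ M M' : ℕ, M' ≤ x →
      ‖∑ n ∈ Ioc M M', w l.1 n * χ n * Pool.Agent.X22.ND.hp τ n‖ ≤ (x : ℝ) ^ (1 / 2 + δ) := ⟨_, rfl⟩
  have key := hj y A R ?_ (fun m => ShortSums δ A w Λ y ((nm (toE m) : ℝ) ^ (κ₀ / 2)) (toE m)) ?_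
  · refine le_trans (le_of_eq ?_) key
    congr 2
    ext i
    refine and_congr_right fun hi => not_congr ?_
    have e : toE (fun l => (v j i l).toNat) = (⟨v j i 0, v j i 1⟩ : Eis) := by
      show (⟨(((v j i 0).toNat : ℕ) : ℤ), (((v j i 1).toNat : ℕ) : ℤ)⟩ : Eis) = _
      rw [Int.toNat_of_nonneg (hpos j i hi 0), Int.toNat_of_nonneg (hpos j i hi 1)]
    rw [e]
  · intro S u H hW E hE
    have e1 : {t : ℕ | t ∈ S ∧ ¬ E (u t)} = ((S.filter fun t => ¬ E (u t) : Finset ℕ) : Set ℕ) := by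
      ext t
      simp
    rw [e1, Set.ncard_coe_finset]
    refine hlaw S u H y hW (by omega) (κ × (ZMod 3 × ZMod 3)) Λ' ?_
      (fun x q n m => FF n (toE m)) ?_ (fun x q n => w q.1 n) (fun x q n => FF n (star (epz q.2.1 q.2.2)))
      (fun x q n => hw q.1 n) (fun x q n => FF_norm _ _) E ?_
    · intro x hx
      rw [hΛ', card_product]
      have e1 : (univ : Finset (ZMod 3 × ZMod 3)).card = 9 := by decide
      rw [e1, pow_add]
      apply Nat.mul_le_mul (hΛ x)
      calc 9 ≤ 3 ^ 4 := by norm_num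
        _ ≤ x ^ 4 := Nat.pow_le_pow_left (by omega) 4
    · intro x hx q _
      apply (fam _ x h3L).mono
      exact Real.one_le_rpow (by exact_mod_cast (by omega : 1 ≤ x)) (by positivity)
    · intro m hm
      refine hE m fun n hyn hn => ?_
      rw [hR]
      exact hm n hyn hn
  · intro m hm h3 ψ hψ x hyx hxr i hi τ hτ M M' hM'
    obtain ⟨P, hP, hPa, hPψ⟩ := hψ
    have hxr' : (x : ℝ) ≤ (1 + ∑ l, (m l : ℝ)) ^ κ₀ := by
      refine hxr.trans ?_
      have h0 : (0 : ℝ) ≤ 1 + ∑ l, (m l : ℝ) := by positivity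
      calc ((nm (toE m) : ℤ) : ℝ) ^ (κ₀ / 2) ≤ ((1 + ∑ l, (m l : ℝ)) ^ 2) ^ (κ₀ / 2) :=
            Real.rpow_le_rpow (nm_nonneg m) (nm_le m) (by positivity)
        _ = (1 + ∑ l, (m l : ℝ)) ^ κ₀ := by
            rw [← Real.rpow_natCast, ← Real.rpow_mul h0]
            congr 1
            push_cast
            ring
    have hm' := hm x hyx hxr'
    rw [hR] at hm'
    have hP3 : ∀ π ∈ P, ¬ π ∣ 3 := by
      intro π hπ
      refine not_three (fun h => h3 (h.trans (nr_dvd ?_))) (hP π hπ)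
      exact (Multiset.dvd_prod hπ).trans hPa.dvd
    obtain ⟨χ, hχ⟩ : ∃ χ : ℕ → ℂ, χ = fun (n : ℕ) => (P.map (fun π => loc π (n : Ei))).prod := ⟨_, rfl⟩
    have hχψ : ∀ n : ℕ, ψ (n : ZMod (nm (toE m)).natAbs) = χ n := by
      intro n
      rw [hχ]
      show ψ (n : ZMod (nm (toE m)).natAbs) = (P.map (fun π => loc π (n : Ei))).prod
      by_cases hn : n.Coprime (nm (toE m)).natAbs
      · rw [hPψ n hn]
        congr 1
        apply Multiset.map_congr rfl
        intro π hπ
        exact residue_eq (hP π hπ) (hP3 π hπ) n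
      · rw [prod_zero (toE m) P hP hPa n hn]
        apply MulChar.map_nonunit
        rw [ZMod.isUnit_iff_coprime]
        exact hn
    have h5 := hm' (i, ((toE m).re : ZMod 3), ((toE m).im : ZMod 3)) (by rw [hΛ']; exact mem_product.2 ⟨hi, mem_univ _⟩)
      τ hτ χ ?_ ?_ ?_ M M' hM'
    · unfold shortSum
      have e1 : ∑ n ∈ Ioc M M', w i n * ψ (n : ZMod (nm (toE m)).natAbs) * Complex.exp (((-(τ * Real.log n) : ℝ) : ℂ) * Complex.I) =
          ∑ n ∈ Ioc M M', w i n * χ n * Pool.Agent.X22.ND.hp τ n := by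
        apply sum_congr rfl
        intro n _
        rw [hχψ n]
        rfl
      rw [e1]
      exact h5
    · intro n
      rw [← hχψ n]
      exact DirichletCharacter.norm_le_one ψ _
    · intro n n' _ _
      rw [← hχψ, ← hχψ, ← hχψ, Nat.cast_mul, map_mul]
    · intro n hn
      rw [mem_nn] at hn
      have hn3 : ¬ 3 ∣ n := fun h => Nat.not_coprime_of_dvd_of_dvd (by norm_num : 1 < 3) h h3L hn.2
      rw [hχ]
      exact recip (by omega) hn3 (toE m) h3 P hP hPa

end Pool.Agent.Results.MP_081200_nt.ArbitrarySets
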