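import Pool.Agent.U828.KD.WN
import Pool.Agent.X22.CC2

/-!
# Short sums of the cubic characters whose conductors are given by the integer parts of the values at the same integer of
two arbitrary functions of different orders

The cubic character is the cubic residue symbol of the Eisenstein integer `α = ⌊f_0(t)⌋ + ⌊f_1(t)⌋ ω`, where `f_0`, `f_1` are
ARBITRARY functions of different positive orders `c_0`, `c_1`: for one `d > c_0, c_1` the differences of order `d` of `f_l` have a
constant sign and are `t ^ (c_l - d + o(1))` in absolute value. No smoothness is assumed and there is no formula; examples are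
`t ^ c` with `c` not an integer, `t ^ j log t`, all these plus arbitrary real polynomials of degree below `d`, and irregular
functions. There is one parameter `t` only: for `t ≤ N` only `N` Eisenstein integers occur.

Nothing is used besides Mathlib in the statement.

The starting file `ThinSequences` has the result for generalised polynomials whose leading exponents are not integers. New is the
distribution of the pairs of integer parts modulo all moduli up to a power of `N`, for arbitrary functions of given orders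
(`Pool.Agent.U828.KD.order_well`, by a derivative test for arbitrary sequences). The rest is as there: high moments of sums of
multiplicative families of local functions over well distributed families (`Pool.Agent.N647.TS`); cubic reciprocity
(`Pool.Agent.X22.CC2`).
-/

set_option autoImplicit false

namespace Pool.Agent.Results.MP_081200_nt.FunctionsOfGivenOrder

open Finset

/-- The ring `ℤ[ω]` of the Eisenstein integers, `ω ^ 2 = - ω - 1`; `⟨u, v⟩` is `u + v ω`. -/
abbrev Eis : Type := QuadraticAlgebra ℤ (-1) (-1)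

/-- The primitive cube root of unity `ω` in `ℤ[ω]`. -/
def om : Eis := ⟨0, 1⟩

/-- The norm of `u + v ω`, namely `u ^ 2 - u v + v ^ 2`. -/
def nm (α : Eis) : ℤ := α.re ^ 2 - α.re * α.im + α.im ^ 2

/-- The complex cube root of unity `(- 1 + i √3) / 2`. -/
noncomputable def zeta : ℂ := ⟨-1 / 2, Real.sqrt 3 / 2⟩

open Classical in
/-- The cubic residue symbol of the rational integer `n` modulo the prime `π` of `ℤ[ω]` (of norm `p`): it is `0` if `π` divides `n`, and otherwise
it is `1`, `zeta` or `zeta ^ 2` according as `n ^ ((p - 1) / 3)` is congruent to `1`, to `ω` or to `ω ^ 2` modulo `π`. -/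
noncomputable def residue (π : Eis) (n : ℕ) : ℂ :=
  if π ∣ (n : Eis) then 0 else if π ∣ (n : Eis) ^ (((nm π).natAbs - 1) / 3) - 1 then 1
  else if π ∣ (n : Eis) ^ (((nm π).natAbs - 1) / 3) - om then zeta else zeta ^ 2

/-- The Dirichlet character `ψ` modulo the norm of `α` is the cubic residue symbol of `α`: for a decomposition of `α` into primes `π` (up to a unit), `ψ (n)` is the product of
the cubic residue symbols of `n` modulo these primes for all `n` coprime to the norm of `α`. -/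
def IsSymbol (α : Eis) (ψ : DirichletCharacter ℂ (nm α).natAbs) : Prop :=
  ∃ P : Multiset Eis, (∀ π ∈ P, Prime π) ∧ Associated P.prod α ∧
    ∀ n : ℕ, n.Coprime (nm α).natAbs → ψ (n : ZMod (nm α).natAbs) = (P.map (fun π => residue π n)).prod

/-- The sum `∑ w (n) ψ (n) n ^ (- i τ)` over the integers `n` with `M < n ≤ M'`. -/
noncomputable def shortSum {q : ℕ} (ψ : DirichletCharacter ℂ q) (w : ℕ → ℂ) (τ : ℝ) (M M' : ℕ) : ℂ :=
  ∑ n ∈ Ioc M M', w n * ψ (n : ZMod q) * Complex.exp (((-(τ * Real.log n) : ℝ) : ℂ) * Complex.I)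

/-- The differences of order `d` of `f` have a constant sign and are `t ^ (c - d + o(1))` in absolute value. -/
def Order (d : ℕ) (c : ℝ) (f : ℕ → ℝ) : Prop :=
  ∀ ε : ℝ, 0 < ε → ∃ T : ℕ,
    (∀ t : ℕ, T ≤ t → (t : ℝ) ^ (c - d - ε) ≤ (fwdDiff 1)^[d] f t ∧
      (fwdDiff 1)^[d] f t ≤ (t : ℝ) ^ (c - d + ε)) ∨
    (∀ t : ℕ, T ≤ t → (t : ℝ) ^ (c - d - ε) ≤ -(fwdDiff 1)^[d] f t ∧
      -(fwdDiff 1)^[d] f t ≤ (t : ℝ) ^ (c - d + ε))

/-- The Eisenstein integer `⌊f_0(t)⌋ + ⌊f_1(t)⌋ ω` (negative integer parts, which occur for finitely many `t` only, are replaced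
by `0`). -/
noncomputable def alpha (f : Fin 2 → ℕ → ℝ) (t : ℕ) : Eis := ⟨(⌊f 0 t⌋₊ : ℕ), (⌊f 1 t⌋₊ : ℕ)⟩

/-- The property of `α`: if its norm is not divisible by `3`, then for the Dirichlet character `ψ` modulo the norm of `α` which is the
cubic residue symbol of `α`, all integers `x` with `y ≤ x ≤ X`, all functions `w i`, `i ∈ Λ x`, all real `τ` with `|τ| ≤ x ^ A` and all
`M < M' ≤ x` we have `|∑ w (n) ψ (n) n ^ (- i τ)| ≤ x ^ (1 / 2 + δ)`, where the sum runs over the integers `n` with `M < n ≤ M'`. -/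
def ShortSums (δ : ℝ) (A : ℕ) {κ : Type} (w : κ → ℕ → ℂ) (Λ : ℕ → Finset κ) (y : ℕ) (X : ℝ) (α : Eis) : Prop :=
  ¬ (3 : ℤ) ∣ nm α → ∀ ψ : DirichletCharacter ℂ (nm α).natAbs, IsSymbol α ψ →
    ∀ x : ℕ, y ≤ x → (x : ℝ) ≤ X → ∀ i ∈ Λ x, ∀ τ : ℝ, |τ| ≤ (x : ℝ) ^ A → ∀ M M' : ℕ, M' ≤ x →
      ‖shortSum ψ (w i) τ M M'‖ ≤ (x : ℝ) ^ (1 / 2 + δ)

open Pool.Agent.X22.CC Pool.Agent.X22.MT
open Pool.Agent.Y692.QS (Ei nr ep star_re epz wC)
open Pool.Agent.Y715.T.Rec (cs nn)
open Pool.Agent.Y715.T.RecG (cs_spec cs_uniq)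

lemma residue_eq {π : Eis} (hπ : Prime π) (h3 : ¬ π ∣ 3) (n : ℕ) : residue π n = loc π (n : Ei) := by
  by_cases hd : π ∣ (n : Ei)
  · rw [loc_zero hd]
    unfold residue
    rw [if_pos hd]
  · rw [loc_ne hd]
    have h1 := cs_spec hπ h3 hd
    unfold residue
    rw [if_neg hd]
    have e : ((nm π).natAbs - 1) / 3 = nn π := rfl
    rw [e]
    have key : ∀ c : ZMod 3, c = 0 ∨ c = 1 ∨ c = 2 := by decide
    have e0 : (Pool.Agent.Y692.QS.w : Ei) = om := rfl
    rcases key (cs π (n : Ei)) with h | h | h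
    · rw [h] at h1 ⊢
      have h2 : π ∣ (n : Eis) ^ nn π - 1 := by
        have e1 : (Pool.Agent.Y692.QS.w : Ei) ^ (0 : ZMod 3).val = 1 := rfl
        rw [e1] at h1
        exact h1
      rw [if_pos h2]
      rfl
    · rw [h] at h1 ⊢
      have e1 : (Pool.Agent.Y692.QS.w : Ei) ^ (1 : ZMod 3).val = om := by decide
      rw [e1] at h1
      have h2 : ¬ π ∣ (n : Eis) ^ nn π - 1 := by
        intro h2
        have h4 := cs_uniq hπ h3 (c := 0) (d := 1) (by
          have e2 : (Pool.Agent.Y692.QS.w : Ei) ^ (0 : ZMod 3).val = 1 := rfl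
          rw [e2]
          exact h2) (by
          have e2 : (Pool.Agent.Y692.QS.w : Ei) ^ (1 : ZMod 3).val = om := by decide
          rw [e2]
          exact h1)
        exact absurd h4 (by decide)
      rw [if_neg h2, if_pos h1]
      have e2 : (1 : ZMod 3).val = 1 := rfl
      rw [e2, pow_one]
      rfl
    · rw [h] at h1 ⊢
      have h2 : ¬ π ∣ (n : Eis) ^ nn π - 1 := by
        intro h2
        have h4 := cs_uniq hπ h3 (c := 0) (d := 2) (by
          have e2 : (Pool.Agent.Y692.QS.w : Ei) ^ (0 : ZMod 3).val = 1 := rfl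
          rw [e2]
          exact h2) h1
        exact absurd h4 (by decide)
      have h2' : ¬ π ∣ (n : Eis) ^ nn π - om := by
        intro h2
        have h4 := cs_uniq hπ h3 (c := 1) (d := 2) (by
          have e2 : (Pool.Agent.Y692.QS.w : Ei) ^ (1 : ZMod 3).val = om := by decide
          rw [e2]
          exact h2) h1
        exact absurd h4 (by decide)
      rw [if_neg h2, if_neg h2']
      have e2 : (2 : ZMod 3).val = 2 := rfl
      rw [e2]
      rfl

/-- the product of the symbols vanishes at the integers not coprime to the norm -/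
lemma prod_zero (α : Ei) (P : Multiset Ei) (hP : ∀ π ∈ P, Prime π) (hPa : Associated P.prod α) (n : ℕ)
    (hn : ¬ n.Coprime (nr α).natAbs) : (P.map (fun π => loc π (n : Ei))).prod = 0 := by
  obtain ⟨p, hp, hpn, hpα⟩ := Nat.Prime.not_coprime_iff_dvd.1 hn
  have hpZ : Prime (p : ℤ) := Nat.prime_iff_prime_int.1 hp
  have h1 : (p : ℤ) ∣ nr P.prod := by
    have h2 : nr P.prod = nr α := by
      obtain ⟨u, hu⟩ := hPa
      rw [← hu, Pool.Agent.Y692.QS.nr_mul, Pool.Agent.Y692.QS.isUnit_iff.1 u.isUnit, mul_one]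
    rw [h2]
    exact (Int.natCast_dvd).2 hpα
  have h2 : ∀ s : Multiset Ei, (p : ℤ) ∣ nr s.prod → ∃ π ∈ s, (p : ℤ) ∣ nr π := by
    intro s
    induction s using Multiset.induction_on with
    | empty =>
      intro h
      exfalso
      rw [Multiset.prod_zero, Pool.Agent.Y692.QS.nr_one] at h
      exact hpZ.not_isUnit (isUnit_of_dvd_one h)
    | cons a s ih =>
      intro h
      rw [Multiset.prod_cons, Pool.Agent.Y692.QS.nr_mul] at h
      rcases hpZ.dvd_or_dvd h with h | h
      · exact ⟨a, Multiset.mem_cons_self a s, h⟩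
      · obtain ⟨π, hπ, h'⟩ := ih h
        exact ⟨π, Multiset.mem_cons_of_mem hπ, h'⟩
  obtain ⟨π, hπ, hpπ⟩ := h2 P h1
  obtain ⟨l, hl, hπl, hc⟩ := Pool.Agent.Y715.T.Rec.exists_p (hP π hπ)
  have hpl : p = l := by
    have h3 : (p : ℤ) ∣ l := by
      rcases hc with h | h
      · rw [h] at hpπ
        exact hpπ
      · rw [h] at hpπ
        exact hpZ.dvd_of_dvd_pow hpπ
    exact (Nat.prime_dvd_prime_iff_eq hp hl).1 (by exact_mod_cast h3)
  have hπn : π ∣ (n : Ei) := by
    refine hπl.trans ?_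
    rw [← hpl]
    exact_mod_cast (Nat.cast_dvd_cast hpn : ((p : ℕ) : Ei) ∣ (n : Ei))
  apply Multiset.prod_eq_zero
  rw [Multiset.mem_map]
  exact ⟨π, hπ, loc_zero hπn⟩

open Classical in
/-- **Short sums of cubic characters along arbitrary functions of given orders.** Let `f_0`, `f_1` be arbitrary functions of the
orders `c_0 ≠ c_1`, `0 < c_0, c_1 < d` (for example `f_0(t) = t ^ √2`, `f_1(t) = t log t`), with `f_l(t) ≥ 0` for large `t`, and let an
integer `A ≥ 0` and `δ > 0` be given. There are `κ₀ > 0` and `y₀` such that for all `y ≥ y₀` and all `N` the following holds.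

Let `Λ x` be for every `x` any set of at most `x ^ A` functions `w` on the integers with `|w (n)| ≤ 1`. Then for all the integers `t` in
`(N, 2 N]` with at most `N / y ^ A` exceptions the Eisenstein integer `α = ⌊f_0(t)⌋ + ⌊f_1(t)⌋ ω` has, if its norm is not
divisible by `3`, the following property: for the Dirichlet character `ψ` modulo the norm of `α` which is the cubic residue symbol of
`α`, all integers `x` with `y ≤ x ≤ N ^ κ₀`, all functions `w` from `Λ x`, all real `τ` with `|τ| ≤ x ^ A` and all `M < M' ≤ x` we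
have `|∑ w (n) ψ (n) n ^ (- i τ)| ≤ x ^ (1 / 2 + δ)`, where the sum runs over the integers `n` with `M < n ≤ M'`. -/
theorem result (d : ℕ) (hd : 2 ≤ d) (c : Fin 2 → ℝ) (hc : Function.Injective c) (hc0 : ∀ l, 0 < c l) (hcd : ∀ l, c l < d)
    (f : Fin 2 → ℕ → ℝ) (hf : ∀ l, Order d (c l) (f l)) (hp : ∀ l, ∃ T : ℕ, ∀ t : ℕ, T ≤ t → 0 ≤ f l t)
    (δ : ℝ) (hδ : 0 < δ) (A : ℕ) :
    ∃ κ₀ : ℝ, 0 < κ₀ ∧ ∃ y₀ : ℕ, ∀ y N : ℕ, y₀ ≤ y →
    ∀ (κ : Type) (w : κ → ℕ → ℂ) (Λ : ℕ → Finset κ), (∀ i n, ‖w i n‖ ≤ 1) → (∀ x, (Λ x).card ≤ x ^ A) →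
      (((Ioc N (2 * N)).filter fun t => ¬ ShortSums δ A w Λ y ((N : ℝ) ^ κ₀) (alpha f t)).card : ℝ) ≤
        1 / (y : ℝ) ^ A * N := by
  classical
  have h3L : 3 ∣ 3 := dvd_rfl
  obtain ⟨κ₀, hκ₀, y₀, h⟩ := Pool.Agent.U828.KD.mt_order (k := 2) (by norm_num) d hd c hc hc0 hcd f hf hp 3 (by norm_num) δ hδ A
    (A + 4) A
  refine ⟨κ₀, hκ₀, y₀ + 3, fun y N hy κ w Λ hw hΛ => ?_⟩
  refine h y N (by omega) (κ × (ZMod 3 × ZMod 3)) (fun x => (Λ x) ×ˢ univ) ?_
    (fun x q n m => FF n (toE m)) ?_ (fun x q n => w q.1 n) (fun x q n => FF n (star (epz q.2.1 q.2.2))) (fun x q n => hw q.1 n) (fun x q n => FF_norm _ _)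
    (fun m => ShortSums δ A w Λ y ((N : ℝ) ^ κ₀) (toE m)) ?_
  · intro x hx
    rw [card_product]
    have e1 : (univ : Finset (ZMod 3 × ZMod 3)).card = 9 := by decide
    rw [e1, pow_add]
    apply Nat.mul_le_mul (hΛ x)
    calc 9 ≤ 3 ^ 4 := by norm_num
      _ ≤ x ^ 4 := Nat.pow_le_pow_left (by omega) 4
  · intro x hx q _
    apply (fam _ x h3L).mono
    exact Real.one_le_rpow (by exact_mod_cast (by omega : 1 ≤ x)) (by positivity)
  · intro m hm h3 ψ hψ x hyx hxr i hi τ hτ M M' hM'
    obtain ⟨P, hP, hPa, hPψ⟩ := hψ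
    have hP3 : ∀ π ∈ P, ¬ π ∣ 3 := by
      intro π hπ
      refine not_three (fun h => h3 (h.trans (nr_dvd ?_))) (hP π hπ)
      exact (Multiset.dvd_prod hπ).trans hPa.dvd
    obtain ⟨χ, hχ⟩ : ∃ χ : ℕ → ℂ, χ = fun (n : ℕ) => (P.map (fun π => loc π (n : Ei))).prod := ⟨_, rfl⟩
    have hχψ : ∀ n : ℕ, ψ (n : ZMod (nm (toE m)).natAbs) = χ n := by
      intro n
      rw [hχ]
      show ψ (n : ZMod (nm (toE m)).natAbs) = (P.map (fun π => loc π (n : Ei))).prod
      by_cases hn : n.Coprime (nm (toE m)).natAbs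
      · rw [hPψ n hn]
        congr 1
        apply Multiset.map_congr rfl
        intro π hπ
        exact residue_eq (hP π hπ) (hP3 π hπ) n
      · rw [prod_zero (toE m) P hP hPa n hn]
        apply MulChar.map_nonunit
        rw [ZMod.isUnit_iff_coprime]
        exact hn
    have h5 := hm x hyx hxr (i, ((toE m).re : ZMod 3), ((toE m).im : ZMod 3)) (mem_product.2 ⟨hi, mem_univ _⟩) τ hτ χ ?_ ?_ ?_ M M' hM'
    · unfold shortSum
      have e1 : ∑ n ∈ Ioc M M', w i n * ψ (n : ZMod (nm (toE m)).natAbs) * Complex.exp (((-(τ * Real.log n) : ℝ) : ℂ) * Complex.I) =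
          ∑ n ∈ Ioc M M', w i n * χ n * Pool.Agent.X22.ND.hp τ n := by
        apply sum_congr rfl
        intro n _
        rw [hχψ n]
        rfl
      rw [e1]
      exact h5
    · intro n
      rw [← hχψ n]
      exact DirichletCharacter.norm_le_one ψ _
    · intro n n' _ _
      rw [← hχψ, ← hχψ, ← hχψ, Nat.cast_mul, map_mul]
    · intro n hn
      rw [mem_nn] at hn
      have hn3 : ¬ 3 ∣ n := fun h => Nat.not_coprime_of_dvd_of_dvd (by norm_num : 1 < 3) h h3L hn.2
      rw [hχ]
      exact recip (by omega) hn3 (toE m) h3 P hP hPa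

end Pool.Agent.Results.MP_081200_nt.FunctionsOfGivenOrder
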