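import Pool.Agent.U828.KD.WP
import Pool.Agent.X22.CC2

/-!
# MP_081200_nt: short cubic character sums on product sets of values of two arbitrary functions

Power saving `x ^ (1/2 + δ)` for the short sums (twisted by arbitrary small families of functions and by `n ^ (- i τ)`) of the
cubic characters attached to the Eisenstein integers `⌊f_0(m)⌋ + ⌊f_1(n)⌋ ω`, for almost all pairs `(m, n)` of the product of two
intervals, where `f_0`, `f_1` are ARBITRARY functions (no regularity) whose differences of order `d_0`, `d_1` have a constant sign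
and a lower bound, on `M ^ (1/d + δ₁)` points: the sets of values are arbitrarily sparse.

The starting result `ThinSequences` and my `FunctionsOfGivenOrder` have one-parameter sequences `n ↦ (f_0(n), f_1(n))` (generalised
polynomials, functions of different orders). The theorem on well distributed families of the starting library
(`Pool.Agent.N647.TS.mt_law2W`) is used; the distribution of the family in residue classes is the theorem
`Pool.Agent.U828.KD.FCB.bent_equi` (a derivative test for arbitrary functions) for the two variables separately.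
-/

set_option autoImplicit false

namespace Pool.Agent.Results.MP_081200_nt.HigherConvexProducts

open Finset

/-- The ring `ℤ[ω]` of the Eisenstein integers, `ω ^ 2 = - ω - 1`; `⟨u, v⟩` is `u + v ω`. -/
abbrev Eis : Type := QuadraticAlgebra ℤ (-1) (-1)

/-- The primitive cube root of unity `ω` in `ℤ[ω]`. -/
def om : Eis := ⟨0, 1⟩

/-- The norm of `u + v ω`, namely `u ^ 2 - u v + v ^ 2`. -/
def nm (α : Eis) : ℤ := α.re ^ 2 - α.re * α.im + α.im ^ 2

/-- The complex cube root of unity `(- 1 + i √3) / 2`. -/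
noncomputable def zeta : ℂ := ⟨-1 / 2, Real.sqrt 3 / 2⟩

open Classical in
/-- The cubic residue symbol of the rational integer `n` modulo the prime `π` of `ℤ[ω]` (of norm `p`): it is `0` if `π` divides `n`, and otherwise
it is `1`, `zeta` or `zeta ^ 2` according as `n ^ ((p - 1) / 3)` is congruent to `1`, to `ω` or to `ω ^ 2` modulo `π`. -/
noncomputable def residue (π : Eis) (n : ℕ) : ℂ :=
  if π ∣ (n : Eis) then 0 else if π ∣ (n : Eis) ^ (((nm π).natAbs - 1) / 3) - 1 then 1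
  else if π ∣ (n : Eis) ^ (((nm π).natAbs - 1) / 3) - om then zeta else zeta ^ 2

/-- The Dirichlet character `ψ` modulo the norm of `α` is the cubic residue symbol of `α`: for a decomposition of `α` into primes `π` (up to a unit), `ψ (n)` is the product of
the cubic residue symbols of `n` modulo these primes for all `n` coprime to the norm of `α`. -/
def IsSymbol (α : Eis) (ψ : DirichletCharacter ℂ (nm α).natAbs) : Prop :=
  ∃ P : Multiset Eis, (∀ π ∈ P, Prime π) ∧ Associated P.prod α ∧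
    ∀ n : ℕ, n.Coprime (nm α).natAbs → ψ (n : ZMod (nm α).natAbs) = (P.map (fun π => residue π n)).prod

/-- The sum `∑ w (n) ψ (n) n ^ (- i τ)` over the integers `n` with `M < n ≤ M'`. -/
noncomputable def shortSum {q : ℕ} (ψ : DirichletCharacter ℂ q) (w : ℕ → ℂ) (τ : ℝ) (M M' : ℕ) : ℂ :=
  ∑ n ∈ Ioc M M', w n * ψ (n : ZMod q) * Complex.exp (((-(τ * Real.log n) : ℝ) : ℂ) * Complex.I)

/-- The differences of order `d` of `f` on `{1, …, x}` are all at least `κ`, or all at most `-κ`. -/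
def Bent (d x : ℕ) (f : ℕ → ℝ) (κ : ℝ) : Prop :=
  (∀ m, 1 ≤ m → m + d ≤ x → κ ≤ (fwdDiff 1)^[d] f m) ∨
    (∀ m, 1 ≤ m → m + d ≤ x → (fwdDiff 1)^[d] f m ≤ -κ)

/-- The hypotheses on one function: `f` maps `{1, …, x}` to `[0, M]`, `x ≥ M ^ (1 / d + δ)`, and the differences of order `d` are
all at least `M ^ (1 - κ) / x ^ d`, or all at most minus this number. -/
def Curve (d : ℕ) (δ κ M : ℝ) (x : ℕ) (f : ℕ → ℝ) : Prop :=
  M ^ (1 / (d : ℝ) + δ) ≤ x ∧ (∀ m ∈ Icc 1 x, 0 ≤ f m ∧ f m ≤ M) ∧ Bent d x f (M ^ (1 - κ) / (x : ℝ) ^ d)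

/-- The Eisenstein integer `⌊f_0(m)⌋ + ⌊f_1(n)⌋ ω`, `p = (m, n)`. -/
noncomputable def alpha (f : Fin 2 → ℕ → ℝ) (p : ℕ × ℕ) : Eis := ⟨(⌊f 0 p.1⌋₊ : ℕ), (⌊f 1 p.2⌋₊ : ℕ)⟩

/-- The property of `α`: if its norm is not divisible by `3`, then for the Dirichlet character `ψ` modulo the norm of `α` which is the
cubic residue symbol of `α`, all integers `x` with `y ≤ x ≤ X`, all functions `w i`, `i ∈ Λ x`, all real `τ` with `|τ| ≤ x ^ A` and all
`M < M' ≤ x` we have `|∑ w (n) ψ (n) n ^ (- i τ)| ≤ x ^ (1 / 2 + δ)`, where the sum runs over the integers `n` with `M < n ≤ M'`. -/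
def ShortSums (δ : ℝ) (A : ℕ) {κ : Type} (w : κ → ℕ → ℂ) (Λ : ℕ → Finset κ) (y : ℕ) (X : ℝ) (α : Eis) : Prop :=
  ¬ (3 : ℤ) ∣ nm α → ∀ ψ : DirichletCharacter ℂ (nm α).natAbs, IsSymbol α ψ →
    ∀ x : ℕ, y ≤ x → (x : ℝ) ≤ X → ∀ i ∈ Λ x, ∀ τ : ℝ, |τ| ≤ (x : ℝ) ^ A → ∀ M M' : ℕ, M' ≤ x →
      ‖shortSum ψ (w i) τ M M'‖ ≤ (x : ℝ) ^ (1 / 2 + δ)

open Pool.Agent.X22.CC Pool.Agent.X22.MT
open Pool.Agent.Y692.QS (Ei nr ep star_re epz wC)
open Pool.Agent.Y715.T.Rec (cs nn)
open Pool.Agent.Y715.T.RecG (cs_spec cs_uniq)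

lemma residue_eq {π : Eis} (hπ : Prime π) (h3 : ¬ π ∣ 3) (n : ℕ) : residue π n = loc π (n : Ei) := by
  by_cases hd : π ∣ (n : Ei)
  · rw [loc_zero hd]
    unfold residue
    rw [if_pos hd]
  · rw [loc_ne hd]
    have h1 := cs_spec hπ h3 hd
    unfold residue
    rw [if_neg hd]
    have e : ((nm π).natAbs - 1) / 3 = nn π := rfl
    rw [e]
    have key : ∀ c : ZMod 3, c = 0 ∨ c = 1 ∨ c = 2 := by decide
    have e0 : (Pool.Agent.Y692.QS.w : Ei) = om := rfl
    rcases key (cs π (n : Ei)) with h | h | h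
    · rw [h] at h1 ⊢
      have h2 : π ∣ (n : Eis) ^ nn π - 1 := by
        have e1 : (Pool.Agent.Y692.QS.w : Ei) ^ (0 : ZMod 3).val = 1 := rfl
        rw [e1] at h1
        exact h1
      rw [if_pos h2]
      rfl
    · rw [h] at h1 ⊢
      have e1 : (Pool.Agent.Y692.QS.w : Ei) ^ (1 : ZMod 3).val = om := by decide
      rw [e1] at h1
      have h2 : ¬ π ∣ (n : Eis) ^ nn π - 1 := by
        intro h2
        have h4 := cs_uniq hπ h3 (c := 0) (d := 1) (by
          have e2 : (Pool.Agent.Y692.QS.w : Ei) ^ (0 : ZMod 3).val = 1 := rfl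
          rw [e2]
          exact h2) (by
          have e2 : (Pool.Agent.Y692.QS.w : Ei) ^ (1 : ZMod 3).val = om := by decide
          rw [e2]
          exact h1)
        exact absurd h4 (by decide)
      rw [if_neg h2, if_pos h1]
      have e2 : (1 : ZMod 3).val = 1 := rfl
      rw [e2, pow_one]
      rfl
    · rw [h] at h1 ⊢
      have h2 : ¬ π ∣ (n : Eis) ^ nn π - 1 := by
        intro h2
        have h4 := cs_uniq hπ h3 (c := 0) (d := 2) (by
          have e2 : (Pool.Agent.Y692.QS.w : Ei) ^ (0 : ZMod 3).val = 1 := rfl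
          rw [e2]
          exact h2) h1
        exact absurd h4 (by decide)
      have h2' : ¬ π ∣ (n : Eis) ^ nn π - om := by
        intro h2
        have h4 := cs_uniq hπ h3 (c := 1) (d := 2) (by
          have e2 : (Pool.Agent.Y692.QS.w : Ei) ^ (1 : ZMod 3).val = om := by decide
          rw [e2]
          exact h2) h1
        exact absurd h4 (by decide)
      rw [if_neg h2, if_neg h2']
      have e2 : (2 : ZMod 3).val = 2 := rfl
      rw [e2]
      rfl

/-- the product of the symbols vanishes at the integers not coprime to the norm -/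
lemma prod_zero (α : Ei) (P : Multiset Ei) (hP : ∀ π ∈ P, Prime π) (hPa : Associated P.prod α) (n : ℕ)
    (hn : ¬ n.Coprime (nr α).natAbs) : (P.map (fun π => loc π (n : Ei))).prod = 0 := by
  obtain ⟨p, hp, hpn, hpα⟩ := Nat.Prime.not_coprime_iff_dvd.1 hn
  have hpZ : Prime (p : ℤ) := Nat.prime_iff_prime_int.1 hp
  have h1 : (p : ℤ) ∣ nr P.prod := by
    have h2 : nr P.prod = nr α := by
      obtain ⟨u, hu⟩ := hPa
      rw [← hu, Pool.Agent.Y692.QS.nr_mul, Pool.Agent.Y692.QS.isUnit_iff.1 u.isUnit, mul_one]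
    rw [h2]
    exact (Int.natCast_dvd).2 hpα
  have h2 : ∀ s : Multiset Ei, (p : ℤ) ∣ nr s.prod → ∃ π ∈ s, (p : ℤ) ∣ nr π := by
    intro s
    induction s using Multiset.induction_on with
    | empty =>
      intro h
      exfalso
      rw [Multiset.prod_zero, Pool.Agent.Y692.QS.nr_one] at h
      exact hpZ.not_isUnit (isUnit_of_dvd_one h)
    | cons a s ih =>
      intro h
      rw [Multiset.prod_cons, Pool.Agent.Y692.QS.nr_mul] at h
      rcases hpZ.dvd_or_dvd h with h | h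
      · exact ⟨a, Multiset.mem_cons_self a s, h⟩
      · obtain ⟨π, hπ, h'⟩ := ih h
        exact ⟨π, Multiset.mem_cons_of_mem hπ, h'⟩
  obtain ⟨π, hπ, hpπ⟩ := h2 P h1
  obtain ⟨l, hl, hπl, hc⟩ := Pool.Agent.Y715.T.Rec.exists_p (hP π hπ)
  have hpl : p = l := by
    have h3 : (p : ℤ) ∣ l := by
      rcases hc with h | h
      · rw [h] at hpπ
        exact hpπ
      · rw [h] at hpπ
        exact hpZ.dvd_of_dvd_pow hpπ
    exact (Nat.prime_dvd_prime_iff_eq hp hl).1 (by exact_mod_cast h3)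
  have hπn : π ∣ (n : Ei) := by
    refine hπl.trans ?_
    rw [← hpl]
    exact_mod_cast (Nat.cast_dvd_cast hpn : ((p : ℕ) : Ei) ∣ (n : Ei))
  apply Multiset.prod_eq_zero
  rw [Multiset.mem_map]
  exact ⟨π, hπ, loc_zero hπn⟩

open Classical in
/-- **Short sums of cubic characters on product sets of values of two arbitrary functions.** Let `d_0, d_1 ≥ 2`, `0 < δ₁ ≤ 1`,
`δ > 0` and an integer `A ≥ 0` be given. There are `κ₁, κ₀ > 0` and `y₀` such that for all `y ≥ y₀` and all `N` the following holds.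

Let `f_0`, `f_1` be ANY functions with `Curve (d_i) δ₁ κ₁ (K_i) (x_i) f_i`, `K_i ≥ N`, and let `Λ x` be for every `x` any set of
at most `x ^ A` functions `w` on the integers with `|w (n)| ≤ 1`. Then for all pairs `(m, n)`, `1 ≤ m ≤ x_0`, `1 ≤ n ≤ x_1`, with at
most `x_0 x_1 / y ^ A` exceptions, the Eisenstein integer `α = ⌊f_0(m)⌋ + ⌊f_1(n)⌋ ω` has, if its norm is not divisible by `3`, the
following property: for the Dirichlet character `ψ` modulo the norm of `α` which is the cubic residue symbol of `α`, all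
integers `x` with `y ≤ x ≤ N ^ κ₀`, all functions `w` from `Λ x`, all real `τ` with `|τ| ≤ x ^ A` and all `M < M' ≤ x` we have
`|∑ w (n) ψ (n) n ^ (- i τ)| ≤ x ^ (1 / 2 + δ)`, where the sum runs over the integers `n` with `M < n ≤ M'`. -/
theorem result (d : Fin 2 → ℕ) (hd : ∀ i, 2 ≤ d i) (δ₁ : ℝ) (h0 : 0 < δ₁) (h1 : δ₁ ≤ 1) (δ : ℝ) (hδ : 0 < δ) (A : ℕ) :
    ∃ κ₁ κ₀ : ℝ, 0 < κ₁ ∧ 0 < κ₀ ∧ ∃ y₀ : ℕ, ∀ y N : ℕ, y₀ ≤ y →
    ∀ (K : Fin 2 → ℝ) (x : Fin 2 → ℕ) (f : Fin 2 → ℕ → ℝ), (∀ i, (N : ℝ) ≤ K i) →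
    (∀ i, Curve (d i) δ₁ κ₁ (K i) (x i) (f i)) →
    ∀ (κ : Type) (w : κ → ℕ → ℂ) (Λ : ℕ → Finset κ), (∀ i n, ‖w i n‖ ≤ 1) → (∀ x, (Λ x).card ≤ x ^ A) →
      ((((Icc 1 (x 0)) ×ˢ (Icc 1 (x 1))).filter fun p => ¬ ShortSums δ A w Λ y ((N : ℝ) ^ κ₀) (alpha f p)).card : ℝ) ≤
        1 / (y : ℝ) ^ A * ((x 0 : ℝ) * x 1) := by
  classical
  have h3L : 3 ∣ 3 := dvd_rfl
  obtain ⟨κ₁, κ₀, hκ₁, hκ₀, y₀, h⟩ := Pool.Agent.U828.KD.mt_prod d hd δ₁ h0 h1 3 (by norm_num) δ hδ A (A + 4) A
  refine ⟨κ₁, κ₀, hκ₁, hκ₀, y₀ + 3, fun y N hy K x f hK hf κ w Λ hw hΛ => ?_⟩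
  refine h y N (by omega) K x f hK hf (κ × (ZMod 3 × ZMod 3)) (fun x => (Λ x) ×ˢ univ) ?_
    (fun x q n m => FF n (toE m)) ?_ (fun x q n => w q.1 n) (fun x q n => FF n (star (epz q.2.1 q.2.2))) (fun x q n => hw q.1 n) (fun x q n => FF_norm _ _)
    (fun m => ShortSums δ A w Λ y ((N : ℝ) ^ κ₀) (toE m)) ?_
  · intro x hx
    rw [card_product]
    have e1 : (univ : Finset (ZMod 3 × ZMod 3)).card = 9 := by decide
    rw [e1, pow_add]
    apply Nat.mul_le_mul (hΛ x)
    calc 9 ≤ 3 ^ 4 := by norm_num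
      _ ≤ x ^ 4 := Nat.pow_le_pow_left (by omega) 4
  · intro x hx q _
    apply (fam _ x h3L).mono
    exact Real.one_le_rpow (by exact_mod_cast (by omega : 1 ≤ x)) (by positivity)
  · intro m hm h3 ψ hψ x hyx hxr i hi τ hτ M M' hM'
    obtain ⟨P, hP, hPa, hPψ⟩ := hψ
    have hP3 : ∀ π ∈ P, ¬ π ∣ 3 := by
      intro π hπ
      refine not_three (fun h => h3 (h.trans (nr_dvd ?_))) (hP π hπ)
      exact (Multiset.dvd_prod hπ).trans hPa.dvd
    obtain ⟨χ, hχ⟩ : ∃ χ : ℕ → ℂ, χ = fun (n : ℕ) => (P.map (fun π => loc π (n : Ei))).prod := ⟨_, rfl⟩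
    have hχψ : ∀ n : ℕ, ψ (n : ZMod (nm (toE m)).natAbs) = χ n := by
      intro n
      rw [hχ]
      show ψ (n : ZMod (nm (toE m)).natAbs) = (P.map (fun π => loc π (n : Ei))).prod
      by_cases hn : n.Coprime (nm (toE m)).natAbs
      · rw [hPψ n hn]
        congr 1
        apply Multiset.map_congr rfl
        intro π hπ
        exact residue_eq (hP π hπ) (hP3 π hπ) n
      · rw [prod_zero (toE m) P hP hPa n hn]
        apply MulChar.map_nonunit
        rw [ZMod.isUnit_iff_coprime]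
        exact hn
    have h5 := hm x hyx hxr (i, ((toE m).re : ZMod 3), ((toE m).im : ZMod 3)) (mem_product.2 ⟨hi, mem_univ _⟩) τ hτ χ ?_ ?_ ?_ M M' hM'
    · unfold shortSum
      have e1 : ∑ n ∈ Ioc M M', w i n * ψ (n : ZMod (nm (toE m)).natAbs) * Complex.exp (((-(τ * Real.log n) : ℝ) : ℂ) * Complex.I) =
          ∑ n ∈ Ioc M M', w i n * χ n * Pool.Agent.X22.ND.hp τ n := by
        apply sum_congr rfl
        intro n _
        rw [hχψ n]
        rfl
      rw [e1]
      exact h5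
    · intro n
      rw [← hχψ n]
      exact DirichletCharacter.norm_le_one ψ _
    · intro n n' _ _
      rw [← hχψ, ← hχψ, ← hχψ, Nat.cast_mul, map_mul]
    · intro n hn
      rw [mem_nn] at hn
      have hn3 : ¬ 3 ∣ n := fun h => Nat.not_coprime_of_dvd_of_dvd (by norm_num : 1 < 3) h h3L hn.2
      rw [hχ]
      exact recip (by omega) hn3 (toE m) h3 P hP hPa

end Pool.Agent.Results.MP_081200_nt.HigherConvexProducts
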