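import Pool.Agent.U585.CM.Mod

/-!
# MP_081200_nt: short sums in the random model of the cubic characters

In the random model the values of a cubic character at the primes are replaced by independent random
cube roots of unity `f p`, each of the three with probability `1/3`, and the character by the
completely multiplicative function `f`; the integers which are not coprime to a modulus `r` may be
left out. Almost surely all the statements `C_n` hold with `δ = 1/2`, simultaneously for all moduli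
`r ≤ Q`, all intervals in `[1, Q]` and all `n`.

Outline. The random variables `f(q)`, `q` free of cubes, are orthonormal; hypercontractivity for the
polynomials in the `f p` of degree `O(log N / log log N)`; the number of pairs of integers in an
interval of length `H` whose quotient is a cube of a rational number is `O(H (log H)^2)`, wherever the
interval lies; a union bound over all intervals and the lemma of Borel and Cantelli; inclusion and
exclusion for the modulus.
-/

set_option autoImplicit false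

namespace Pool.Agent.Results.MP_081200_nt.RandomCubicModel

open MeasureTheory Filter Topology ProbabilityTheory

/-- the completely multiplicative function with the values `s p` at the primes -/
noncomputable def cmult (s : ℕ → ℂ) (n : ℕ) : ℂ := ∏ p ∈ n.primeFactors, s p ^ n.factorization p

/-- the sum of `cmult s` over the integers `a` with `M < a ≤ M + N` which are coprime to `r` -/
noncomputable def S (s : ℕ → ℂ) (r M N : ℕ) : ℂ :=
  ∑ a ∈ (Finset.Ioc M (M + N)).filter (fun a => a.Coprime r), cmult s a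

/-- independent random cube roots of unity with mean zero, that is each of the three with
probability `1/3` -/
structure Cubic {Ω : Type} [MeasurableSpace Ω] (P : Measure Ω) (f : ℕ → Ω → ℂ) : Prop where
  measurable : ∀ p, Measurable (f p)
  indep : iIndepFun f P
  cube : ∀ p ω, f p ω ^ 3 = 1
  mean : ∀ p, ∫ ω, f p ω ∂P = 0

/-- **Short sums in the random model of the cubic characters.** The model exists, and in every such
model almost surely:

(1) for every `ε > 0` there is `C` such that for all moduli `r ≥ 1` and all intervals `(M, M + N]` in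
`[0, Q]` the sum of `f(a)` over the `a` in the interval which are coprime to `r` is at most
`C (Q r)^ε √N`;

(2) all the statements `C_n` with `δ = 1/2`: for every `ε > 0` there is `c` such that for all `n ≥ 1`, all
real `Q ≥ 3`, all moduli `r ≤ Q`, all `N ≤ Q^(1/n)` and all `M` with `M + N ≤ Q` the sum is at most
`c Q^((1-δ)/n + ε)`. -/
theorem result :
    (∃ (Ω : Type) (_ : MeasurableSpace Ω) (P : Measure Ω) (_ : IsProbabilityMeasure P)
      (f : ℕ → Ω → ℂ), Cubic P f) ∧
    ∀ (Ω : Type) [MeasurableSpace Ω] (P : Measure Ω) [IsProbabilityMeasure P] (f : ℕ → Ω → ℂ),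
      Cubic P f → ∀ᵐ ω ∂P,
        (∀ ε : ℝ, 0 < ε → ∃ C : ℝ, 0 < C ∧ ∀ Q r M N : ℕ, 1 ≤ r → M + N ≤ Q →
          ‖S (fun p => f p ω) r M N‖ ≤ C * ((Q : ℝ) ^ ε * (r : ℝ) ^ ε) * √N) ∧
        (∀ ε : ℝ, 0 < ε → ∃ c : ℝ, 0 < c ∧ ∀ (n : ℕ) (Q : ℝ) (r M N : ℕ), 1 ≤ n → 3 ≤ Q → 1 ≤ r →
          (r : ℝ) ≤ Q → (N : ℝ) ≤ Q ^ (1 / (n : ℝ)) → (M : ℝ) + N ≤ Q →
          ‖S (fun p => f p ω) r M N‖ ≤ c * Q ^ ((1 - 1 / 2) / (n : ℝ) + ε)) := by
  refine ⟨?_, ?_⟩
  · obtain ⟨Ω, m, P, hP, f, h⟩ := Pool.Agent.U585.CM.exists_cubes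
    exact ⟨Ω, m, P, hP, f, ⟨h.meas, h.indep, h.val, h.mean⟩⟩
  · intro Ω _ P _ f h
    have h0 : Pool.Agent.U585.CM.Cubes P f := ⟨h.measurable, h.indep, h.cube, h.mean⟩
    filter_upwards [Pool.Agent.U585.CM.main_mod h0] with ω hω
    have h1 : ∀ ε : ℝ, 0 < ε → ∃ C : ℝ, 0 < C ∧ ∀ Q r M N : ℕ, 1 ≤ r → M + N ≤ Q →
        ‖S (fun p => f p ω) r M N‖ ≤ C * ((Q : ℝ) ^ ε * (r : ℝ) ^ ε) * √N := hω
    refine ⟨h1, fun ε hε => ?_⟩
    obtain ⟨C, hC, h2⟩ := h1 (ε / 2) (by linarith)
    refine ⟨C, hC, fun n Q r M N hn hQ hr hrQ hN hMN => ?_⟩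
    have hQ0 : (0 : ℝ) < Q := by linarith
    have hn0 : (0 : ℝ) < n := by exact_mod_cast hn
    have h3 : M + N ≤ ⌊Q⌋₊ := Nat.le_floor (by push_cast; exact hMN)
    have h4 := h2 ⌊Q⌋₊ r M N hr h3
    refine h4.trans ?_
    have h5 : ((⌊Q⌋₊ : ℕ) : ℝ) ^ (ε / 2) ≤ Q ^ (ε / 2) :=
      Real.rpow_le_rpow (Nat.cast_nonneg _) (Nat.floor_le hQ0.le) (by linarith)
    have h6 : (r : ℝ) ^ (ε / 2) ≤ Q ^ (ε / 2) := Real.rpow_le_rpow (Nat.cast_nonneg _) hrQ (by linarith)
    have h7 : √(N : ℝ) ≤ Q ^ ((1 - 1 / 2) / (n : ℝ)) := by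
      rw [Real.sqrt_eq_rpow]
      calc (N : ℝ) ^ (1 / 2 : ℝ) ≤ (Q ^ (1 / (n : ℝ))) ^ (1 / 2 : ℝ) :=
            Real.rpow_le_rpow (Nat.cast_nonneg _) hN (by norm_num)
        _ = Q ^ ((1 - 1 / 2) / (n : ℝ)) := by
            rw [← Real.rpow_mul hQ0.le]
            congr 1
            field_simp
            norm_num
    calc C * (((⌊Q⌋₊ : ℕ) : ℝ) ^ (ε / 2) * (r : ℝ) ^ (ε / 2)) * √N
        ≤ C * (Q ^ (ε / 2) * Q ^ (ε / 2)) * Q ^ ((1 - 1 / 2) / (n : ℝ)) := by
          gcongr
      _ = C * Q ^ ((1 - 1 / 2) / (n : ℝ) + ε) := by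
          rw [← Real.rpow_add hQ0, mul_assoc, ← Real.rpow_add hQ0]
          congr 2
          ring

end Pool.Agent.Results.MP_081200_nt.RandomCubicModel
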